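import Pool.Agent.helper14.AU.Spec
import Pool.Agent.helper39.SGE.M10

/-! # Project au (MP_d58e27_lc), module MEM: area universality reduces to `UETR` -/

set_option autoImplicit false

namespace Pool.Agent.helper14.AU

open N68a2faeb N793a5b8e Pool.Agent.helper56.SGE Pool.Agent.helper56.SGE.QSys
  Pool.Agent.helper98.Tsei Pool.Agent.H54.PT

/-! ### Counting bits -/

/-- number of the bits `false` before the position `p` -/
def MEM_c (w : List Bool) (p : ℕ) : ℕ :=
  ((Finset.range p).filter (fun q => ¬ (w.getD q false = true))).card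

/-- number of the bits `false` -/
def MEM_Z (w : List Bool) : ℕ := MEM_c w w.length

/-- number of the bits `true` with exactly `a` bits `false` before them -/
def MEM_N (w : List Bool) (a : ℕ) : ℕ :=
  ((Finset.range w.length).filter (fun p => w.getD p false = true ∧ MEM_c w p = a)).card

theorem MEM_c_zero (w : List Bool) : MEM_c w 0 = 0 := rfl

theorem MEM_c_cons (b : Bool) (w : List Bool) (p : ℕ) :
    MEM_c (b :: w) (p + 1) = MEM_c w p + (if b = true then 0 else 1) := by
  unfold MEM_c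
  rw [Finset.card_filter, Finset.card_filter, Finset.sum_range_succ']
  congr 1
  simp only [List.getD_cons_zero]
  cases b <;> simp

theorem MEM_Z_cons (b : Bool) (w : List Bool) :
    MEM_Z (b :: w) = MEM_Z w + (if b = true then 0 else 1) := by
  unfold MEM_Z
  rw [List.length_cons, MEM_c_cons]

theorem MEM_N_cons_true (w : List Bool) (a : ℕ) :
    MEM_N (true :: w) a = MEM_N w a + (if a = 0 then 1 else 0) := by
  unfold MEM_N
  rw [Finset.card_filter, Finset.card_filter, List.length_cons, Finset.sum_range_succ']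
  congr 1
  · refine Finset.sum_congr rfl fun i _ => ?_
    rw [List.getD_cons_succ, MEM_c_cons]
    simp
  · rw [List.getD_cons_zero, MEM_c_zero]
    by_cases h : a = 0
    · simp [h]
    · have : ¬ (0 = a) := fun h' => h h'.symm
      simp [h, this]

theorem MEM_N_cons_false_zero (w : List Bool) : MEM_N (false :: w) 0 = 0 := by
  unfold MEM_N
  rw [Finset.card_filter, List.length_cons, Finset.sum_range_succ']
  rw [List.getD_cons_zero]
  have : ∀ i ∈ Finset.range w.length,
      (if (false :: w).getD (i + 1) false = true ∧ MEM_c (false :: w) (i + 1) = 0 then 1 else 0)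
        = 0 := by
    intro i _
    rw [MEM_c_cons]
    simp
  rw [Finset.sum_eq_zero this]
  simp

theorem MEM_N_cons_false_succ (w : List Bool) (a : ℕ) :
    MEM_N (false :: w) (a + 1) = MEM_N w a := by
  unfold MEM_N
  rw [Finset.card_filter, Finset.card_filter, List.length_cons, Finset.sum_range_succ']
  rw [List.getD_cons_zero]
  have : ∀ i ∈ Finset.range w.length,
      (if (false :: w).getD (i + 1) false = true ∧ MEM_c (false :: w) (i + 1) = a + 1 then 1 else 0)
        = (if w.getD i false = true ∧ MEM_c w i = a then 1 else 0) := by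
    intro i _
    rw [List.getD_cons_succ, MEM_c_cons]
    simp
  rw [Finset.sum_congr rfl this]
  simp

theorem MEM_unary_zero (w : List Bool) : unary 0 ++ w = false :: w := rfl

theorem MEM_unary_succ (n : ℕ) (w : List Bool) : unary (n + 1) ++ w = true :: (unary n ++ w) := rfl

theorem MEM_Z_unary (n : ℕ) (w : List Bool) : MEM_Z (unary n ++ w) = MEM_Z w + 1 := by
  induction n with
  | zero => rw [MEM_unary_zero, MEM_Z_cons]; simp
  | succ n ih => rw [MEM_unary_succ, MEM_Z_cons, ih]; simp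

theorem MEM_N_unary_zero (n : ℕ) (w : List Bool) : MEM_N (unary n ++ w) 0 = n := by
  induction n with
  | zero => rw [MEM_unary_zero, MEM_N_cons_false_zero]
  | succ n ih => rw [MEM_unary_succ, MEM_N_cons_true, ih]; simp

theorem MEM_N_unary_succ (n : ℕ) (w : List Bool) (a : ℕ) :
    MEM_N (unary n ++ w) (a + 1) = MEM_N w a := by
  induction n with
  | zero => rw [MEM_unary_zero, MEM_N_cons_false_succ]
  | succ n ih => rw [MEM_unary_succ, MEM_N_cons_true, ih]; simp

/-! ### Lists of numbers in unary -/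

/-- code of a list of numbers -/
def MEM_u (l : List ℕ) : List Bool := l.flatMap unary

theorem MEM_u_nil : MEM_u [] = [] := rfl

theorem MEM_u_cons (n : ℕ) (l : List ℕ) : MEM_u (n :: l) = unary n ++ MEM_u l := by
  unfold MEM_u
  rw [List.flatMap_cons]

theorem MEM_Z_u (l : List ℕ) : MEM_Z (MEM_u l) = l.length := by
  induction l with
  | nil => rfl
  | cons n l ih => rw [MEM_u_cons, MEM_Z_unary, ih, List.length_cons]

theorem MEM_N_u (l : List ℕ) : ∀ a, MEM_N (MEM_u l) a = l.getD a 0 := by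
  induction l with
  | nil => intro a; rfl
  | cons n l ih =>
    intro a
    rw [MEM_u_cons]
    cases a with
    | zero => rw [MEM_N_unary_zero, List.getD_cons_zero]
    | succ a => rw [MEM_N_unary_succ, ih, List.getD_cons_succ]

/-- the word is empty or its last bit is `false` -/
def MEM_E (w : List Bool) : Prop := ¬ (w.getD (w.length - 1) false = true)

theorem MEM_E_nil : MEM_E [] := by
  unfold MEM_E
  simp

theorem MEM_E_single (b : Bool) : MEM_E [b] ↔ b = false := by
  unfold MEM_E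
  cases b <;> simp

theorem MEM_E_cons (b c : Bool) (w : List Bool) : MEM_E (b :: c :: w) ↔ MEM_E (c :: w) := by
  unfold MEM_E
  have h1 : (b :: c :: w).length - 1 = w.length + 1 := rfl
  have h2 : (c :: w).length - 1 = w.length := rfl
  rw [h1, h2, List.getD_cons_succ]

theorem MEM_E_unary (n : ℕ) (w : List Bool) (h : MEM_E w) : MEM_E (unary n ++ w) := by
  induction n with
  | zero =>
    rw [MEM_unary_zero]
    cases w with
    | nil => exact (MEM_E_single false).2 rfl
    | cons c w => exact (MEM_E_cons false c w).2 h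
  | succ n ih =>
    rw [MEM_unary_succ]
    cases hv : unary n ++ w with
    | nil =>
      exfalso
      have := congrArg List.length hv
      simp [unary] at this
    | cons c v =>
      rw [hv] at ih
      exact (MEM_E_cons true c v).2 ih

theorem MEM_E_u (l : List ℕ) : MEM_E (MEM_u l) := by
  induction l with
  | nil => exact MEM_E_nil
  | cons n l ih =>
    rw [MEM_u_cons]
    exact MEM_E_unary n _ ih

theorem MEM_E_exists : ∀ w : List Bool, MEM_E w → ∃ l, w = MEM_u l := by
  intro w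
  induction w with
  | nil => intro _; exact ⟨[], rfl⟩
  | cons b w ih =>
    intro h
    cases w with
    | nil =>
      rw [MEM_E_single] at h
      subst h
      exact ⟨[0], rfl⟩
    | cons c w =>
      rw [MEM_E_cons] at h
      obtain ⟨l, hl⟩ := ih h
      cases b with
      | false =>
        refine ⟨0 :: l, ?_⟩
        rw [MEM_u_cons, MEM_unary_zero, hl]
      | true =>
        cases l with
        | nil => simp [MEM_u] at hl
        | cons n l =>
          refine ⟨(n + 1) :: l, ?_⟩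
          rw [MEM_u_cons, MEM_unary_succ, hl, MEM_u_cons]

/-! ### Lists of triples -/

/-- the list of the entries -/
def MEM_flat (T : List (ℕ × ℕ × ℕ)) : List ℕ := T.flatMap fun t => [t.1, t.2.1, t.2.2]

theorem MEM_flat_cons (t : ℕ × ℕ × ℕ) (T : List (ℕ × ℕ × ℕ)) :
    MEM_flat (t :: T) = t.1 :: t.2.1 :: t.2.2 :: MEM_flat T := rfl

theorem MEM_code (T : List (ℕ × ℕ × ℕ)) : code T = MEM_u (MEM_flat T) := by
  induction T with
  | nil => rfl
  | cons t T ih =>
    rw [MEM_flat_cons, MEM_u_cons, MEM_u_cons, MEM_u_cons, ← ih]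
    unfold code
    rw [List.flatMap_cons]
    simp

theorem MEM_flat_length (T : List (ℕ × ℕ × ℕ)) : (MEM_flat T).length = 3 * T.length := by
  induction T with
  | nil => rfl
  | cons t T ih =>
    rw [MEM_flat_cons, List.length_cons, List.length_cons, List.length_cons, ih, List.length_cons]
    ring

/-- list of triples of a function -/
def MEM_T (g : ℕ → ℕ) (m : ℕ) : List (ℕ × ℕ × ℕ) :=
  (List.range m).map fun a => (g (3 * a), g (3 * a + 1), g (3 * a + 2))

theorem MEM_T_succ (g : ℕ → ℕ) (m : ℕ) :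
    MEM_T g (m + 1) = (g 0, g 1, g 2) :: MEM_T (fun i => g (i + 3)) m := by
  unfold MEM_T
  rw [List.range_succ_eq_map, List.map_cons, List.map_map]
  rfl

theorem MEM_flat_T (m : ℕ) : ∀ l : List ℕ, l.length = 3 * m →
    MEM_flat (MEM_T (fun a => l.getD a 0) m) = l := by
  induction m with
  | zero =>
    intro l hl
    have : l = [] := List.length_eq_zero_iff.1 (by omega)
    subst this
    rfl
  | succ m ih =>
    intro l hl
    match l, hl with
    | a :: b :: c :: l, hl =>
      have h1 : l.length = 3 * m := by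
        simp only [List.length_cons] at hl
        omega
      rw [MEM_T_succ, MEM_flat_cons]
      have h2 : (fun i => (a :: b :: c :: l).getD (i + 3) 0) = fun i => l.getD i 0 := by
        funext i
        rfl
      rw [h2, ih l h1]
      rfl
    | [], hl => simp at hl
    | [_], hl => simp at hl; omega
    | [_, _], hl => simp at hl; omega

theorem MEM_T_flat (T : List (ℕ × ℕ × ℕ)) :
    MEM_T (fun a => (MEM_flat T).getD a 0) T.length = T := by
  induction T with
  | nil => rfl
  | cons t T ih =>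
    rw [List.length_cons, MEM_T_succ]
    have h2 : (fun i => (MEM_flat (t :: T)).getD (i + 3) 0) = fun i => (MEM_flat T).getD i 0 := by
      funext i
      rfl
    rw [h2, ih]
    rfl

/-- the list of triples read from a word -/
def MEM_L (w : List Bool) : List (ℕ × ℕ × ℕ) := MEM_T (MEM_N w) (MEM_Z w / 3)

theorem MEM_parse (w : List Bool) (P : List (ℕ × ℕ × ℕ) → Prop) :
    (∃ T, code T = w ∧ P T) ↔ (MEM_E w ∧ MEM_Z w % 3 = 0) ∧ P (MEM_L w) := by
  constructor
  · rintro ⟨T, rfl, hP⟩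
    rw [MEM_code]
    have h1 : MEM_Z (MEM_u (MEM_flat T)) = 3 * T.length := by rw [MEM_Z_u, MEM_flat_length]
    have h2 : MEM_L (MEM_u (MEM_flat T)) = T := by
      unfold MEM_L
      rw [h1]
      have h3 : 3 * T.length / 3 = T.length := by omega
      have h4 : MEM_N (MEM_u (MEM_flat T)) = fun a => (MEM_flat T).getD a 0 := by
        funext a
        exact MEM_N_u _ a
      rw [h3, h4, MEM_T_flat]
    refine ⟨⟨MEM_E_u _, ?_⟩, ?_⟩
    · rw [h1]; omega
    · rw [h2]; exact hP
  · rintro ⟨⟨h1, h2⟩, h3⟩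
    refine ⟨MEM_L w, ?_, h3⟩
    obtain ⟨l, rfl⟩ := MEM_E_exists w h1
    rw [MEM_code]
    unfold MEM_L
    have h4 : MEM_N (MEM_u l) = fun a => l.getD a 0 := by
      funext a
      exact MEM_N_u _ a
    rw [MEM_Z_u] at h2 ⊢
    rw [h4, MEM_flat_T (l.length / 3) l (by omega)]

/-- the conditions on the entries -/
def MEM_sys (w : List Bool) : Prop :=
  (∀ a < MEM_Z w / 3, MEM_N w (3 * a) < MEM_N w (3 * a + 1) ∧
    MEM_N w (3 * a + 1) < MEM_N w (3 * a + 2)) ∧
  (∀ a < MEM_Z w / 3, ∀ b < MEM_Z w / 3, MEM_N w (3 * a) = MEM_N w (3 * b) ∧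
    MEM_N w (3 * a + 1) = MEM_N w (3 * b + 1) ∧ MEM_N w (3 * a + 2) = MEM_N w (3 * b + 2) → a = b)

theorem MEM_isSystem (w : List Bool) : IsSystem (MEM_L w) ↔ MEM_sys w := by
  unfold MEM_L MEM_T MEM_sys
  constructor
  · intro h
    refine ⟨fun a ha => ?_, fun a ha b hb hab => ?_⟩
    · exact h.lt (MEM_N w (3 * a), MEM_N w (3 * a + 1), MEM_N w (3 * a + 2))
        (List.mem_map.2 ⟨a, List.mem_range.2 ha, rfl⟩)
    · have h1 := (List.nodup_map_iff_inj_on List.nodup_range).1 h.nodup
      refine h1 a (List.mem_range.2 ha) b (List.mem_range.2 hb) ?_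
      rw [hab.1, hab.2.1, hab.2.2]
  · rintro ⟨h1, h2⟩
    constructor
    · intro t ht
      obtain ⟨a, ha, rfl⟩ := List.mem_map.1 ht
      exact h1 a (List.mem_range.1 ha)
    · rw [List.nodup_map_iff_inj_on List.nodup_range]
      intro a ha b hb hab
      simp only [Prod.mk.injEq] at hab
      exact h2 a (List.mem_range.1 ha) b (List.mem_range.1 hb) hab

/-! ### The formula -/

/-- twice the signed area -/
def MEM_D (i j k : ℕ) : Tm :=
  .sub (.mul (.sub (.var (4 * j + 1)) (.var (4 * i + 1)))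
      (.sub (.var (4 * k + 3)) (.var (4 * i + 3))))
    (.mul (.sub (.var (4 * k + 1)) (.var (4 * i + 1)))
      (.sub (.var (4 * j + 3)) (.var (4 * i + 3))))

/-- the equation of the triple number `a` -/
def MEM_F (a i j k : ℕ) : Fml :=
  .eq (.mul (MEM_D i j k) (MEM_D i j k)) (.mul (.num 4) (.mul (.var (2 * a)) (.var (2 * a))))

/-- the point number `i` -/
def MEM_pt (y : ℕ → ℝ) (i : ℕ) : ℝ × ℝ := (y (4 * i + 1), y (4 * i + 3))

theorem MEM_F_holds (a i j k : ℕ) (y : ℕ → ℝ) : (MEM_F a i j k).holds y ↔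
    area (MEM_pt y i) (MEM_pt y j) (MEM_pt y k) = |y (2 * a)| := by
  simp only [MEM_F, Fml.holds, Tm.val, MEM_D, area, MEM_pt]
  set D := (y (4 * j + 1) - y (4 * i + 1)) * (y (4 * k + 3) - y (4 * i + 3)) -
    (y (4 * k + 1) - y (4 * i + 1)) * (y (4 * j + 3) - y (4 * i + 3)) with hD
  constructor
  · intro h
    have h1 : |D| ^ 2 = (2 * |y (2 * a)|) ^ 2 := by
      rw [mul_pow, sq_abs, sq_abs]
      push_cast at h
      nlinarith
    have h2 : |D| = 2 * |y (2 * a)| := by
      have h3 := abs_nonneg D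
      have h4 := abs_nonneg (y (2 * a))
      exact (pow_left_inj₀ h3 (by positivity) (by norm_num)).1 h1
    rw [h2]
    ring
  · intro h
    have h2 : |D| = 2 * |y (2 * a)| := by linarith
    have h1 : |D| ^ 2 = (2 * |y (2 * a)|) ^ 2 := by rw [h2]
    rw [mul_pow, sq_abs, sq_abs] at h1
    push_cast
    nlinarith

/-- the formula of a word -/
def MEM_form (w : List Bool) : Fml :=
  Pool.Agent.helper39.SGE.conj ((List.range (MEM_Z w / 3)).map fun a =>
    MEM_F a (MEM_N w (3 * a)) (MEM_N w (3 * a + 1)) (MEM_N w (3 * a + 2)))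

theorem MEM_form_holds (w : List Bool) (y : ℕ → ℝ) : (MEM_form w).holds y ↔
    ∀ a < MEM_Z w / 3, area (MEM_pt y (MEM_N w (3 * a))) (MEM_pt y (MEM_N w (3 * a + 1)))
      (MEM_pt y (MEM_N w (3 * a + 2))) = |y (2 * a)| := by
  unfold MEM_form
  rw [Pool.Agent.helper39.SGE.conj_holds]
  constructor
  · intro h a ha
    exact (MEM_F_holds _ _ _ _ _).1 (h _ (List.mem_map.2 ⟨a, List.mem_range.2 ha, rfl⟩))
  · intro h φ hφ
    obtain ⟨a, ha, rfl⟩ := List.mem_map.1 hφ
    exact (MEM_F_holds _ _ _ _ _).2 (h a (List.mem_range.1 ha))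

theorem MEM_sem (w : List Bool) (hs : MEM_sys w) : AreaUniversal (MEM_L w) ↔
    ∀ x : ℕ → ℝ, ∃ y : ℕ → ℝ, (∀ i, y (2 * i) = x (2 * i)) ∧ (MEM_form w).holds y := by
  classical
  constructor
  · intro h x
    let A : ℕ × ℕ × ℕ → ℝ := fun t =>
      if h : ∃ a, a < MEM_Z w / 3 ∧ t = (MEM_N w (3 * a), MEM_N w (3 * a + 1), MEM_N w (3 * a + 2))
      then |x (2 * h.choose)| else 0
    have hA : ∀ a < MEM_Z w / 3,
        A (MEM_N w (3 * a), MEM_N w (3 * a + 1), MEM_N w (3 * a + 2)) = |x (2 * a)| := by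
      intro a ha
      have h1 : ∃ b, b < MEM_Z w / 3 ∧
          (MEM_N w (3 * a), MEM_N w (3 * a + 1), MEM_N w (3 * a + 2)) =
            (MEM_N w (3 * b), MEM_N w (3 * b + 1), MEM_N w (3 * b + 2)) := ⟨a, ha, rfl⟩
      have h2 : A (MEM_N w (3 * a), MEM_N w (3 * a + 1), MEM_N w (3 * a + 2)) =
          |x (2 * h1.choose)| := dif_pos h1
      have h3 := h1.choose_spec
      have h4 := h3.2
      have h5 : a = h1.choose := hs.2 a ha _ h3.1 ⟨congrArg (fun t : ℕ × ℕ × ℕ => t.1) h4,
        congrArg (fun t : ℕ × ℕ × ℕ => t.2.1) h4, congrArg (fun t : ℕ × ℕ × ℕ => t.2.2) h4⟩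
      rw [h2, ← h5]
    obtain ⟨p, hp⟩ := h A (by
      intro t _
      simp only [A]
      split_ifs
      · exact abs_nonneg _
      · exact le_rfl)
    let y : ℕ → ℝ := fun n => if n % 2 = 0 then x n else if n % 4 = 1 then (p (n / 4)).1 else
      (p (n / 4)).2
    have hy : ∀ i, MEM_pt y i = p i := by
      intro i
      have e1 : y (4 * i + 1) = (p i).1 := by
        simp only [y]
        rw [if_neg (by omega), if_pos (by omega)]
        have : (4 * i + 1) / 4 = i := by omega
        rw [this]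
      have e2 : y (4 * i + 3) = (p i).2 := by
        simp only [y]
        rw [if_neg (by omega), if_neg (by omega)]
        have : (4 * i + 3) / 4 = i := by omega
        rw [this]
      unfold MEM_pt
      rw [e1, e2]
    have hy2 : ∀ i, y (2 * i) = x (2 * i) := by
      intro i
      simp only [y]
      rw [if_pos (by omega)]
    refine ⟨y, hy2, ?_⟩
    rw [MEM_form_holds]
    intro a ha
    rw [hy, hy, hy, hy2, ← hA a ha]
    exact hp (MEM_N w (3 * a), MEM_N w (3 * a + 1), MEM_N w (3 * a + 2))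
      (List.mem_map.2 ⟨a, List.mem_range.2 ha, rfl⟩)
  · intro h A hA
    obtain ⟨y, hy1, hy2⟩ := h (fun n => A (MEM_N w (3 * (n / 2)), MEM_N w (3 * (n / 2) + 1),
      MEM_N w (3 * (n / 2) + 2)))
    rw [MEM_form_holds] at hy2
    refine ⟨MEM_pt y, fun t ht => ?_⟩
    obtain ⟨a, ha, rfl⟩ := List.mem_map.1 ht
    have h1 := hy2 a (List.mem_range.1 ha)
    have h2 : y (2 * a) = A (MEM_N w (3 * a), MEM_N w (3 * a + 1), MEM_N w (3 * a + 2)) := by
      rw [hy1]
      have : 2 * a / 2 = a := by omega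
      rw [this]
    have h3 := hA _ ht
    rw [h1, h2, abs_of_nonneg h3]

/-! ### Codes -/

theorem MEM_UETR_nil : UETR [] = false := by
  unfold UETR
  rw [decide_eq_false_iff_not]
  rintro ⟨φ, h, _⟩
  exact Pool.Agent.helper39.SGE.Fml.code_ne_nil φ h

theorem MEM_UETR_code (φ : Fml) : UETR φ.code = true ↔
    ∀ x : ℕ → ℝ, ∃ y : ℕ → ℝ, (∀ i, y (2 * i) = x (2 * i)) ∧ φ.holds y := by
  classical
  unfold UETR
  rw [decide_eq_true_iff]
  constructor
  · rintro ⟨ψ, h, hx⟩
    have := (Pool.Agent.helper39.SGE.Fml.code_inj ψ φ (r := []) (r' := []) (by rw [h])).1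
    exact this ▸ hx
  · intro hx
    exact ⟨φ, rfl, hx⟩

/-- the words that are treated -/
def MEM_ok (w : List Bool) : Prop := (MEM_E w ∧ MEM_Z w % 3 = 0) ∧ MEM_sys w

open Classical in
/-- the reduction -/
noncomputable def MEM_red (w : List Bool) : List Bool :=
  if MEM_ok w then (MEM_form w).code else []

theorem MEM_red_spec (w : List Bool) : TAU w = UETR (MEM_red w) := by
  classical
  rw [Bool.eq_iff_iff]
  unfold TAU
  rw [decide_eq_true_iff, MEM_parse w (fun T => IsSystem T ∧ AreaUniversal T), MEM_isSystem]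
  unfold MEM_red
  by_cases h : MEM_ok w
  · rw [if_pos h, MEM_UETR_code, MEM_sem w h.2]
    constructor
    · exact fun h' => h'.2.2
    · exact fun h' => ⟨h.1, h.2, h'⟩
  · rw [if_neg h, MEM_UETR_nil]
    constructor
    · exact fun h' => absurd ⟨h'.1, h'.2.1⟩ h
    · exact fun h' => absurd h' (by simp)

/-! ### Polynomial time -/

theorem MEM_cp_c : Cp (fun x v => MEM_c x (v 0)) :=
  Cp.count (P := fun x _ q => ¬ (x.getD q false = true)) (Cp.var 0) (Cq.bit (Cp.var 0)).not

theorem MEM_cp_Z : Cp (fun x _ => MEM_Z x) :=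
  Cp.comp1 (g := fun x a => MEM_c x a) MEM_cp_c Cp.len

theorem MEM_cp_N : Cp (fun x v => MEM_N x (v 0)) :=
  Cp.count (P := fun x v p => x.getD p false = true ∧ MEM_c x p = v 0) Cp.len
    ((Cq.bit (Cp.var 0)).and (Cq.eq MEM_cp_c (Cp.var 1)))

theorem MEM_cp_N' {e : Fn} (he : Cp e) : Cp (fun x v => MEM_N x (e x v)) :=
  Cp.comp1 (g := fun x a => MEM_N x a) MEM_cp_N he

theorem MEM_cq_E : Cq (fun x _ => MEM_E x) :=
  (Cq.bit (Cp.len.sub (Cp.const 1))).not

theorem MEM_cp_m : Cp (fun x _ => MEM_Z x / 3) := MEM_cp_Z.div (Cp.const 3)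

theorem MEM_cp_entry (i c : ℕ) : Cp (fun x v => MEM_N x (3 * v i + c)) :=
  MEM_cp_N' (((Cp.const 3).mul (Cp.var i)).add (Cp.const c))

theorem MEM_cp_entry0 (i : ℕ) : Cp (fun x v => MEM_N x (3 * v i)) :=
  MEM_cp_N' ((Cp.const 3).mul (Cp.var i))

theorem MEM_cq_sys : Cq (fun x _ => MEM_sys x) := by
  unfold MEM_sys
  refine Cq.and ?_ ?_
  · refine Cq.all' (P := fun x _ a => MEM_N x (3 * a) < MEM_N x (3 * a + 1) ∧
      MEM_N x (3 * a + 1) < MEM_N x (3 * a + 2)) MEM_cp_m ?_
    exact (Cq.lt (MEM_cp_entry0 0) (MEM_cp_entry 0 1)).and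
      (Cq.lt (MEM_cp_entry 0 1) (MEM_cp_entry 0 2))
  · refine Cq.all' (P := fun x _ a => ∀ b < MEM_Z x / 3, MEM_N x (3 * a) = MEM_N x (3 * b) ∧
      MEM_N x (3 * a + 1) = MEM_N x (3 * b + 1) ∧ MEM_N x (3 * a + 2) = MEM_N x (3 * b + 2) →
        a = b) MEM_cp_m ?_
    refine Cq.all' (P := fun x v b => MEM_N x (3 * v 0) = MEM_N x (3 * b) ∧
      MEM_N x (3 * v 0 + 1) = MEM_N x (3 * b + 1) ∧ MEM_N x (3 * v 0 + 2) = MEM_N x (3 * b + 2) →
        v 0 = b) MEM_cp_m ?_
    exact ((Cq.eq (MEM_cp_entry0 1) (MEM_cp_entry0 0)).and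
      ((Cq.eq (MEM_cp_entry 1 1) (MEM_cp_entry 0 1)).and
        (Cq.eq (MEM_cp_entry 1 2) (MEM_cp_entry 0 2)))).imp (Cq.eq (Cp.var 1) (Cp.var 0))

theorem MEM_cq_ok : Cq (fun x _ => MEM_ok x) :=
  (MEM_cq_E.and (Cq.eq (MEM_cp_Z.mod (Cp.const 3)) (Cp.const 0))).and MEM_cq_sys

theorem MEM_dp_var {e : Fn} (he : Cp e) : Dp (fun x v => (Tm.var (e x v)).code) :=
  ((Dp.const (letter 3)).append (Pool.Agent.helper39.SGE.dp_numCode he)).congr fun _ _ => rfl

theorem MEM_dp_sub {s t : List Bool → (ℕ → ℕ) → Tm} (hs : Dp (fun x v => (s x v).code))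
    (ht : Dp (fun x v => (t x v).code)) : Dp (fun x v => (Tm.sub (s x v) (t x v)).code) :=
  ((Dp.const (letter 6)).append (hs.append ht)).congr fun _ _ => rfl

theorem MEM_dp_mul {s t : List Bool → (ℕ → ℕ) → Tm} (hs : Dp (fun x v => (s x v).code))
    (ht : Dp (fun x v => (t x v).code)) : Dp (fun x v => (Tm.mul (s x v) (t x v)).code) :=
  ((Dp.const (letter 7)).append (hs.append ht)).congr fun _ _ => rfl

theorem MEM_dp_eq {s t : List Bool → (ℕ → ℕ) → Tm} (hs : Dp (fun x v => (s x v).code))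
    (ht : Dp (fun x v => (t x v).code)) : Dp (fun x v => (Fml.eq (s x v) (t x v)).code) :=
  ((Dp.const (letter 9)).append (hs.append ht)).congr fun _ _ => rfl

theorem MEM_dp_D {i j k : Fn} (hi : Cp i) (hj : Cp j) (hk : Cp k) :
    Dp (fun x v => (MEM_D (i x v) (j x v) (k x v)).code) := by
  have X : ∀ {e : Fn}, Cp e → Dp (fun x v => (Tm.var (4 * e x v + 1)).code) :=
    fun he => MEM_dp_var (((Cp.const 4).mul he).add (Cp.const 1))
  have Y : ∀ {e : Fn}, Cp e → Dp (fun x v => (Tm.var (4 * e x v + 3)).code) :=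
    fun he => MEM_dp_var (((Cp.const 4).mul he).add (Cp.const 3))
  exact MEM_dp_sub (MEM_dp_mul (MEM_dp_sub (X hj) (X hi)) (MEM_dp_sub (Y hk) (Y hi)))
    (MEM_dp_mul (MEM_dp_sub (X hk) (X hi)) (MEM_dp_sub (Y hj) (Y hi)))

theorem MEM_dp_F {a i j k : Fn} (ha : Cp a) (hi : Cp i) (hj : Cp j) (hk : Cp k) :
    Dp (fun x v => (MEM_F (a x v) (i x v) (j x v) (k x v)).code) := by
  have V : Dp (fun x v => (Tm.var (2 * a x v)).code) := MEM_dp_var ((Cp.const 2).mul ha)
  have N4 : Dp (fun _ _ => (Tm.num 4).code) := Dp.const _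
  exact MEM_dp_eq (MEM_dp_mul (MEM_dp_D hi hj hk) (MEM_dp_D hi hj hk))
    (MEM_dp_mul N4 (MEM_dp_mul V V))

theorem MEM_dp_form : Dp (fun x _ => (MEM_form x).code) := by
  have h1 : ∀ x : List Bool, (MEM_form x).code = ((List.range (MEM_Z x / 3)).flatMap fun a =>
      letter 11 ++ (MEM_F a (MEM_N x (3 * a)) (MEM_N x (3 * a + 1)) (MEM_N x (3 * a + 2))).code) ++
        Pool.Agent.helper39.SGE.tru.code := by
    intro x
    unfold MEM_form
    rw [Pool.Agent.helper39.SGE.conj_code, List.flatMap_map]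
  refine Dp.congr ?_ (fun x _ => (h1 x).symm)
  refine Dp.append ?_ (Dp.const _)
  refine Dp.forE' (w := fun x _ a => letter 11 ++ (MEM_F a (MEM_N x (3 * a)) (MEM_N x (3 * a + 1))
    (MEM_N x (3 * a + 2))).code) MEM_cp_m ?_
  exact (Dp.const (letter 11)).append
    (MEM_dp_F (Cp.var 0) (MEM_cp_entry0 0) (MEM_cp_entry 0 1) (MEM_cp_entry 0 2))

theorem MEM_dp_red : Dp (fun x _ => MEM_red x) := by
  classical
  refine (Dp.iteP MEM_cq_ok MEM_dp_form (Dp.const [])).congr fun x v => ?_
  unfold MEM_red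
  split_ifs <;> rfl

theorem MEM_isPolyTime : IsPolyTime MEM_red := by
  obtain ⟨p, c, hp⟩ := exists_prog MEM_dp_red (fun b => [true, b, false])
  refine isPolyTime_of_prog MEM_red p c (fun x => ?_)
  have := hp x
  rw [bitEncode_word]
  exact this

/-- **Area universality for triples reduces to `UETR`.** -/
theorem MEM : MEM_stmt := ⟨MEM_red, MEM_isPolyTime, MEM_red_spec⟩

end Pool.Agent.helper14.AU
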